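import Pool.Agent.Y160.FT2.Stmts

/-!
# Norms modulo a prime at which the polynomial is a `q`-th power (`StNrmR`)
-/

set_option autoImplicit false
set_option linter.all false

open Polynomial IsDedekindDomain WithZero

namespace Pool.Agent.Y897.FT2

theorem minpoly_root_monic {S : Type*} [CommRing S] [Nontrivial S] {f : S[X]} (hf : f.Monic) :
    minpoly S (AdjoinRoot.root f) = f := by
  symm
  apply minpoly.unique' S _ hf
  · rw [AdjoinRoot.aeval_eq, AdjoinRoot.mk_self]
  · intro q hq
    by_cases h0 : q = 0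
    · left; exact h0
    · right
      intro h
      rw [AdjoinRoot.aeval_eq, AdjoinRoot.mk_eq_zero] at h
      exact hf.not_dvd_of_degree_lt h0 hq h

theorem norm_mk {S : Type*} [CommRing S] [Nontrivial S] {f : S[X]} (hf : f.Monic) :
    ∃ (n : ℕ) (M : Matrix (Fin n) (Fin n) S), M.charpoly = f ∧
      ∀ A : S[X], Algebra.norm S (AdjoinRoot.mk f A) = (aeval M A).det := by
  refine ⟨_, Algebra.leftMulMatrix (AdjoinRoot.powerBasis' hf).basis
    (AdjoinRoot.powerBasis' hf).gen, ?_, ?_⟩
  · rw [charpoly_leftMulMatrix]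
    exact minpoly_root_monic hf
  · intro A
    rw [Algebra.norm_eq_matrix_det (AdjoinRoot.powerBasis' hf).basis, aeval_algHom_apply]
    congr 2
    rw [AdjoinRoot.powerBasis'_gen, AdjoinRoot.aeval_eq]

theorem det_aeval {K : Type*} [Field K] [IsAlgClosed K] {n : Type*} [Fintype n] [DecidableEq n]
    (M : Matrix n n K) (p : K[X]) :
    (aeval M p).det = (M.charpoly.roots.map fun r => p.eval r).prod := by
  classical
  have hcard : Multiset.card M.charpoly.roots = Fintype.card n := by
    have := (IsAlgClosed.splits M.charpoly).natDegree_eq_card_roots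
    rw [← this, Matrix.charpoly_natDegree_eq_dim]
  have hprod : M.charpoly = (M.charpoly.roots.map fun a => X - C a).prod := by
    have := (IsAlgClosed.splits M.charpoly).eq_prod_roots
    rw [(Matrix.charpoly_monic M).leadingCoeff, C_1, one_mul] at this
    exact this
  have hlin : ∀ a : K, (aeval M (X - C a)).det =
      (M.charpoly.roots.map fun r => (X - C a).eval r).prod := by
    intro a
    have h1 : aeval M (X - C a) = -(Matrix.scalar n a - M) := by
      simp [Matrix.scalar_apply, Algebra.algebraMap_eq_smul_one, Matrix.smul_one_eq_diagonal]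
    rw [h1, Matrix.det_neg, ← Matrix.eval_charpoly]
    conv_lhs => rw [hprod]
    rw [eval_multiset_prod, Multiset.map_map]
    have h2 : (M.charpoly.roots.map fun r => (X - C a).eval r) =
        M.charpoly.roots.map fun r => (-1) * ((eval a ∘ fun b => X - C b) r) := by
      apply Multiset.map_congr rfl
      intro r _
      simp
    rw [h2, Multiset.prod_map_mul, Multiset.map_const', Multiset.prod_replicate, hcard]
  have hp := (IsAlgClosed.splits p).eq_prod_roots
  conv_lhs => rw [hp]
  have hr : ∀ r, p.eval r = p.leadingCoeff * (p.roots.map fun a => (X - C a).eval r).prod := by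
    intro r
    conv_lhs => rw [hp]
    rw [eval_mul, eval_C, eval_multiset_prod, Multiset.map_map]
    rfl
  have h3 : (M.charpoly.roots.map fun r => p.eval r) =
      M.charpoly.roots.map fun r => p.leadingCoeff * (p.roots.map fun a => (X - C a).eval r).prod :=
    Multiset.map_congr rfl fun r _ => hr r
  rw [h3, Multiset.prod_map_mul, Multiset.map_const', Multiset.prod_replicate, hcard, map_mul,
    Matrix.det_mul, Multiset.prod_map_prod_map]
  congr 1
  · rw [aeval_C, Algebra.algebraMap_eq_smul_one, Matrix.det_smul, Matrix.det_one, mul_one]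
  · generalize p.roots = s
    induction s using Multiset.induction_on with
    | empty => simp
    | cons a s ih =>
      rw [Multiset.map_cons, Multiset.prod_cons, map_mul, Matrix.det_mul, ih, hlin,
        Multiset.map_cons, Multiset.prod_cons]

theorem det_aeval_map {K K' : Type*} [CommRing K] [CommRing K'] (φ : K →+* K') {n : Type*}
    [Fintype n] [DecidableEq n] (M : Matrix n n K) (p : K[X]) :
    φ (aeval M p).det = (aeval (M.map φ) (p.map φ)).det := by
  rw [RingHom.map_det]
  congr 1
  rw [aeval_def, aeval_def, eval₂_map, hom_eval₂]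
  congr 1
  · ext a i j
    simp [Matrix.algebraMap_matrix_apply, apply_ite φ]

theorem det_pow {K : Type*} [Field K] {n m : Type*} [Fintype n] [DecidableEq n]
    [Fintype m] [DecidableEq m] (M : Matrix n n K) (M' : Matrix m m K) (q : ℕ)
    (h : M.charpoly = M'.charpoly ^ q) (p : K[X]) :
    (aeval M p).det = (aeval M' p).det ^ q := by
  apply (algebraMap K (AlgebraicClosure K)).injective
  rw [map_pow, det_aeval_map, det_aeval_map, det_aeval, det_aeval, Matrix.charpoly_map,
    Matrix.charpoly_map, h, Polynomial.map_pow, roots_pow, Multiset.map_nsmul,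
    Multiset.prod_nsmul]

theorem norm_pres {S R : Type} [CommRing S] [Nontrivial S] [CommRing R] [Algebra S R] (u : R)
    (f : S[X]) (hf : f.Monic) (hs : Function.Surjective (aeval u : S[X] →ₐ[S] R))
    (hk : ∀ p : S[X], aeval u p = 0 ↔ f ∣ p) (A : S[X]) :
    Algebra.norm S (aeval u A) = Algebra.norm S (AdjoinRoot.mk f A) := by
  have hk' : RingHom.ker (aeval u : S[X] →ₐ[S] R) = Ideal.span {f} := by
    ext p
    rw [RingHom.mem_ker, Ideal.mem_span_singleton]
    exact hk p
  let e : AdjoinRoot f ≃ₐ[S] R :=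
    (Ideal.quotientEquivAlgOfEq S hk'.symm).trans (Ideal.quotientKerAlgEquivOfSurjective hs)
  have he : e (AdjoinRoot.mk f A) = aeval u A := rfl
  rw [← he, Algebra.norm_eq_of_algEquiv]

theorem stNrmR : Pool.Agent.Y160.FT.StNrmR := by
  intro k R _ _ _ _ x u F h c₀ q hq hc₀ hlead hh hF hFlead hP Q hQ hdvd a
  letI alg : Algebra k[X] R := ((aeval x : k[X] →ₐ[k] R) : k[X] →+* R).toAlgebra
  obtain ⟨A, rfl⟩ := hP.surj a
  set f : k[X][X] := C (C (c₀ ^ q)⁻¹) * F with hf_def
  have hcq : c₀ ^ q ≠ 0 := pow_ne_zero _ hc₀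
  have hfm : f.Monic := by
    rw [Monic, hf_def, leadingCoeff_mul, leadingCoeff_C, hFlead, ← C_mul, inv_mul_cancel₀ hcq, C_1]
  have hFf : F = C (C (c₀ ^ q)) * f := by
    rw [hf_def, ← mul_assoc, ← C_mul, ← C_mul, mul_inv_cancel₀ hcq, C_1, C_1, one_mul]
  have hunit : IsUnit (C (C (c₀ ^ q)) : k[X][X]) :=
    (isUnit_iff_ne_zero.mpr hcq).map ((C : k[X] →+* k[X][X]).comp C)
  have hk : ∀ p : k[X][X], aeval u p = 0 ↔ f ∣ p := by
    intro p
    have := hP.ker p
    rw [hFf, hunit.mul_left_dvd] at this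
    exact this
  have hs : Function.Surjective (aeval u : k[X][X] →ₐ[k[X]] R) := fun z => by
    obtain ⟨p, hp⟩ := hP.surj z
    exact ⟨p, hp⟩
  have hN : Pool.Agent.Y160.FT.Nx (k := k) x
      (eval₂ ((aeval x : k[X] →ₐ[k] R) : k[X] →+* R) u A) =
      Algebra.norm k[X] (AdjoinRoot.mk f A) := norm_pres u f hfm hs hk A
  obtain ⟨n, M, hM, hMn⟩ := norm_mk hfm
  have : Fact (Irreducible Q) := ⟨hQ⟩
  let φ : k[X] →+* AdjoinRoot Q := AdjoinRoot.mk Q
  -- the reduction of `h`, made monic
  have hφc : φ (C c₀) ≠ 0 := by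
    intro h0
    rw [AdjoinRoot.mk_eq_zero] at h0
    have := natDegree_le_of_dvd h0 (C_ne_zero.mpr hc₀)
    exact hQ.not_isUnit (isUnit_of_dvd_unit h0 (isUnit_C.mpr (isUnit_iff_ne_zero.mpr hc₀)))
  set h' : (AdjoinRoot Q)[X] := C (φ (C c₀))⁻¹ * h.map φ with hh'
  have hh'm : h'.Monic := by
    rw [Monic, hh', leadingCoeff_mul, leadingCoeff_C,
      leadingCoeff_map_of_leadingCoeff_ne_zero φ (by rw [hlead]; exact hφc), hlead,
      inv_mul_cancel₀ hφc]
  obtain ⟨m, M', hM', -⟩ := norm_mk hh'm
  have hpow : f.map φ = h' ^ q := by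
    have h1 : F.map φ = (h.map φ) ^ q := by
      obtain ⟨G, hG⟩ := hdvd
      have h2 : (F - h ^ q).map φ = 0 := by
        rw [hG, Polynomial.map_mul, map_C, AdjoinRoot.mk_self, C_0, zero_mul]
      rw [Polynomial.map_sub, Polynomial.map_pow, sub_eq_zero] at h2
      exact h2
    rw [hf_def, Polynomial.map_mul, map_C, h1, hh', mul_pow, ← C_pow]
    congr 2
    rw [inv_pow]
    apply eq_inv_of_mul_eq_one_left
    rw [← map_pow, ← map_mul, ← C_pow, ← C_mul, inv_mul_cancel₀ hcq, C_1, map_one]
  have hdet := det_pow (M.map φ) M' q (by rw [Matrix.charpoly_map, hM, hM', hpow]) (A.map φ)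
  obtain ⟨w, hw⟩ := AdjoinRoot.mk_surjective (g := Q) (aeval M' (A.map φ)).det
  refine ⟨w, ?_⟩
  rw [← AdjoinRoot.mk_eq_mk, map_pow, hw, hN, hMn, ← hdet]
  exact det_aeval_map φ M A

end Pool.Agent.Y897.FT2
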